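import Pool.Agent.Helper18.NF.Stmts

set_option autoImplicit false

/-! # RSF : the residue field of a place is finite -/

namespace Pool.Agent.Helper18.NF

open Pool.Agent.Helper14.BSC Polynomial

theorem rsf_mem {p : ℕ} [Fact p.Prime] (x : ℂ_[p]) :
    x ∈ (NormedField.valuation (K := ℂ_[p])).valuationSubring ↔ ‖x‖ ≤ 1 := by
  rw [Valuation.mem_valuationSubring_iff]
  exact Iff.rfl

theorem rsf_max {p : ℕ} [Fact p.Prime] (x : (NormedField.valuation (K := ℂ_[p])).valuationSubring) :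
    IsLocalRing.residue _ x = 0 ↔ ‖(x : ℂ_[p])‖ < 1 := by
  rw [IsLocalRing.residue_eq_zero_iff, IsLocalRing.mem_maximalIdeal, mem_nonunits_iff]
  have h := x.2
  rw [rsf_mem] at h
  constructor
  · intro h1
    by_contra h2
    have h3 : ‖(x : ℂ_[p])‖ = 1 := le_antisymm h (not_lt.1 h2)
    have h4 : (x : ℂ_[p]) ≠ 0 := by
      intro h5
      rw [h5, norm_zero] at h3
      exact zero_ne_one h3
    have h6 : (x : ℂ_[p])⁻¹ ∈ (NormedField.valuation (K := ℂ_[p])).valuationSubring := by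
      rw [rsf_mem, norm_inv, h3, inv_one]
    exact h1 (IsUnit.of_mul_eq_one ⟨_, h6⟩ (Subtype.ext (mul_inv_cancel₀ h4)))
  · intro h1 h2
    obtain ⟨u, hu⟩ := h2.exists_right_inv
    have h3 : (x : ℂ_[p]) * (u : ℂ_[p]) = 1 := congrArg Subtype.val hu
    have h4 : ‖(x : ℂ_[p])‖ * ‖(u : ℂ_[p])‖ = 1 := by rw [← norm_mul, h3, norm_one]
    have h5 : ‖(u : ℂ_[p])‖ ≤ 1 := (rsf_mem _).1 u.2
    nlinarith [norm_nonneg (x : ℂ_[p]), norm_nonneg (u : ℂ_[p])]

theorem rsf_pigeon {p : ℕ} [Fact p.Prime] (n : ℕ) (hn : 0 < n) (y : ℕ → ℂ_[p])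
    (h1 : ∀ N, ‖y N‖ ≤ 1) (h2 : ∀ N, ‖y N ^ (n + 1) - y N‖ < 1) :
    ∃ N N' : ℕ, N < N' ∧ ‖y N - y N'‖ < 1 := by
  classical
  set V := (NormedField.valuation (K := ℂ_[p])).valuationSubring with hV
  let Y : ℕ → V := fun N => ⟨y N, (rsf_mem _).2 (h1 N)⟩
  let κ := IsLocalRing.ResidueField V
  let F : κ[X] := X ^ (n + 1) - X
  have hF : F ≠ 0 := by
    intro h
    have h3 : F.coeff (n + 1) = 1 := by
      simp [F, coeff_X, hn.ne']
    rw [h, coeff_zero] at h3
    exact zero_ne_one h3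
  have hr : ∀ N, F.IsRoot (IsLocalRing.residue V (Y N)) := by
    intro N
    have h3 : IsLocalRing.residue V (Y N ^ (n + 1) - Y N) = 0 := by
      rw [rsf_max]
      exact h2 N
    rw [map_sub, map_pow] at h3
    simp only [F, IsRoot.def, eval_sub, eval_pow, eval_X]
    exact h3
  have : Finite {x | F.IsRoot x} := Polynomial.finite_setOfPred_isRoot hF
  obtain ⟨N, N', hne, heq⟩ := Finite.exists_ne_map_eq_of_infinite
    (fun N : ℕ => (⟨IsLocalRing.residue V (Y N), hr N⟩ : {x | F.IsRoot x}))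
  have h4 : IsLocalRing.residue V (Y N - Y N') = 0 := by
    rw [map_sub, sub_eq_zero]
    exact congrArg Subtype.val heq
  rw [rsf_max] at h4
  rcases lt_or_gt_of_ne hne with h | h
  · exact ⟨N, N', h, h4⟩
  · exact ⟨N', N, h, by rw [norm_sub_rev]; exact h4⟩

theorem rsf_sub {p : ℕ} [Fact p.Prime] (x y : ℂ_[p]) : ‖x - y‖ ≤ max ‖x‖ ‖y‖ := by
  have h := IsUltrametricDist.norm_add_le_max x (-y)
  rwa [norm_neg, ← sub_eq_add_neg] at h

theorem st_RSF (hEFIN : ST_EFIN) : ST_RSF := by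
  intro k Ω _ _ _ _ _ D p _ σ P g hg
  choose z hz hz1 using hg
  obtain ⟨e, n, -, hn, hE⟩ := hEFIN p P.E P.finE
  have hy : ∀ N, ∃ y ∈ P.E, ‖y - z N‖ < 1 := by
    intro N
    by_cases h0 : z N = 0
    · exact ⟨0, zero_mem _, by rw [h0, sub_zero, norm_zero]; exact one_pos⟩
    · obtain ⟨h1, h2⟩ := hz N
      obtain ⟨w, -, y, hy, hy1, -⟩ := P.kum ⟨g N, h1⟩ (by rw [h2]; exact h0) 1 one_pos 1 one_pos 1
        (g N) (by rw [map_one, one_mul, pow_one])
      rw [h2] at hy1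
      exact ⟨y, hy, hy1⟩
  choose y hyE hyz using hy
  have hy1 : ∀ N, ‖y N‖ ≤ 1 := by
    intro N
    have h1 : y N = (y N - z N) + z N := by ring
    rw [h1]
    exact le_trans (IsUltrametricDist.norm_add_le_max _ _) (max_le (hyz N).le (hz1 N))
  have hy2 : ∀ N, ‖y N ^ (n + 1) - y N‖ < 1 := by
    intro N
    rcases (hy1 N).lt_or_eq with h1 | h1
    · refine lt_of_le_of_lt (rsf_sub _ _) (max_lt ?_ h1)
      rw [norm_pow]
      exact pow_lt_one₀ (norm_nonneg _) h1 (Nat.succ_ne_zero n)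
    · have h2 : y N ≠ 0 := by
        intro h3
        rw [h3, norm_zero] at h1
        exact zero_ne_one h1
      have h3 : y N ^ (n + 1) - y N = y N * (y N ^ n - 1) := by ring
      rw [h3, norm_mul, h1, one_mul]
      exact (hE (y N) (hyE N) h2).2 h1
  obtain ⟨N, N', hlt, h⟩ := rsf_pigeon n hn y hy1 hy2
  refine ⟨N, N', hlt, z N, z N', hz N, hz N', ?_⟩
  have h1 : z N - z N' = (y N - y N') + ((y N' - z N') - (y N - z N)) := by ring
  rw [h1]
  refine lt_of_le_of_lt (IsUltrametricDist.norm_add_le_max _ _) (max_lt h ?_)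
  exact lt_of_le_of_lt (rsf_sub _ _) (max_lt (hyz N') (hyz N))

end Pool.Agent.Helper18.NF
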