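import Pool.Agent.Helper18.NF.Stmts2

set_option autoImplicit false

/-! # TRF : independence of the algebraic closure -/

namespace Pool.Agent.Helper18.NF

open Pool.Agent.Helper14.BSC Polynomial

section

variable {k kb kb' : Type} [Field k] [Field kb] [Field kb'] [Algebra k kb] [Algebra k kb']

/-- transport of cocycles along an isomorphism -/
noncomputable def trf_xi (e : kb ≃ₐ[k] kb') {a b : k} (ξ : (kb' ≃ₐ[k] kb') → EP a b kb') :
    (kb ≃ₐ[k] kb) → EP a b kb :=
  fun g => EP.map (e.symm : kb' →ₐ[k] kb) (ξ (e.symm.trans (g.trans e)))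

theorem trf_selmer (e : kb ≃ₐ[k] kb') {a b : k} {m : ℕ} {ξ : (kb' ≃ₐ[k] kb') → EP a b kb'}
    (h : IsSelmer a b m ξ) : IsSelmer a b m (trf_xi e ξ) where
  tors := by
    intro g
    unfold trf_xi
    rw [← map_nsmul, h.tors, map_zero]
  coc := by
    intro g g'
    unfold trf_xi
    have h1 : e.symm.trans ((g * g').trans e) =
        (e.symm.trans (g.trans e)) * (e.symm.trans (g'.trans e)) := by
      ext x
      simp
    have h2 : (e.symm : kb' →ₐ[k] kb).comp ((e.symm.trans (g.trans e) : kb' ≃ₐ[k] kb') :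
        kb' →ₐ[k] kb') = (g : kb →ₐ[k] kb).comp (e.symm : kb' →ₐ[k] kb) := by
      apply AlgHom.ext
      intro x
      simp
    rw [h1, h.coc, map_add, EP.map_map, EP.map_map, h2]
  cont := by
    classical
    obtain ⟨S, hS⟩ := h.cont
    refine ⟨S.image e.symm, fun g hg => ?_⟩
    unfold trf_xi
    rw [hS, map_zero]
    intro c hc
    have h1 := hg (e.symm c) (Finset.mem_image_of_mem _ hc)
    simp [h1]
  loc := by
    intro l _ _ ι
    obtain ⟨U, hU⟩ := h.loc l (ι.comp (e.symm : kb' →ₐ[k] kb))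
    refine ⟨U, fun g τ hτ hι => ?_⟩
    rw [hU (e.symm.trans (g.trans e)) τ hτ (fun c => by simp [hι]), trf_xi, EP.map_map]

end

theorem st_TRF : ST_TRF := by
  intro k kb kb' _ _ _ _ _ e a b p h
  obtain ⟨e₀, he₀, h⟩ := h
  refine ⟨e₀, he₀, fun N ξ hξ => ?_⟩
  obtain ⟨t, ht, ht2⟩ := h N _ (trf_selmer e hξ)
  refine ⟨EP.map (e : kb →ₐ[k] kb') t, by rw [← map_nsmul, ht, map_zero], fun g => ?_⟩
  have h1 := ht2 (e.trans (g.trans e.symm))
  unfold trf_xi at h1
  have h2 : e.symm.trans ((e.trans (g.trans e.symm)).trans e) = g := by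
    ext x
    simp
  rw [h2] at h1
  have h3 := congrArg (EP.map (e : kb →ₐ[k] kb')) h1
  rw [map_nsmul, EP.map_map, map_sub, EP.map_map] at h3
  have h4 : (e : kb →ₐ[k] kb').comp (e.symm : kb' →ₐ[k] kb) = AlgHom.id k kb' := by
    ext x
    simp
  rw [h4, EP.map_id] at h3
  have h5 : (e : kb →ₐ[k] kb').comp ((e.trans (g.trans e.symm) : kb ≃ₐ[k] kb) :
      kb →ₐ[k] kb) = (g : kb' →ₐ[k] kb').comp (e : kb →ₐ[k] kb') := by
    apply AlgHom.ext
    intro x
    simp
  rw [h3, EP.map_map, h5]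

end Pool.Agent.Helper18.NF
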